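import Mathlib
import Pool.Agent.L5helper45.HW.Base

/-!
# Lemma A (for helper45, `MP_301213_nt`): iterated differences of the logarithm
-/

set_option autoImplicit false

namespace Pool.Agent.L5helper39.HW

open Pool.Agent.L5helper45.HW

/-- `- log (x + 1)` and, up to the sign, its derivatives -/
noncomputable def a : ℕ → ℝ → ℝ
  | 0, x => -Real.log (x + 1)
  | k + 1, x => (Nat.factorial k : ℝ) / (x + 1) ^ (k + 1)

/-- iterated differences with the steps `1, 2, 4, ...` -/
noncomputable def R : ℕ → ℕ → ℝ → ℝ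
  | 0, k, x => a k x
  | n + 1, k, x => R n k x - R n k (x + 2 ^ n)

theorem a_deriv (k : ℕ) (x : ℝ) (hx : 0 ≤ x) : HasDerivAt (a k) (-(a (k + 1) x)) x := by
  have h1 : x + 1 ≠ 0 := by positivity
  have hd : HasDerivAt (fun y : ℝ => y + 1) 1 x := (hasDerivAt_id x).add_const 1
  cases k with
  | zero =>
    have h := (hd.log h1).neg
    have he : -(a (0 + 1) x) = -(1 / (x + 1)) := by simp [a]
    rw [he]
    exact h
  | succ k =>
    have h := ((hd.pow (k + 1)).inv (pow_ne_zero _ h1)).const_mul (Nat.factorial k : ℝ)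
    have hf : a (k + 1) = fun y : ℝ => (Nat.factorial k : ℝ) * ((y + 1) ^ (k + 1))⁻¹ := by
      funext y
      show (Nat.factorial k : ℝ) / (y + 1) ^ (k + 1) = _
      rw [div_eq_mul_inv]
    rw [hf]
    refine HasDerivAt.congr_deriv (f' := _) h ?_
    show _ = -((Nat.factorial (k + 1) : ℝ) / (x + 1) ^ (k + 1 + 1))
    rw [Nat.factorial_succ]
    push_cast
    have h2 : (x + 1) ^ (k + 1) ≠ 0 := pow_ne_zero _ h1
    simp only [mul_one]
    have h4 : ((fun y : ℝ => y + 1) ^ (k + 1)) x = (x + 1) ^ (k + 1) := rfl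
    rw [h4]
    field_simp
    ring

theorem R_deriv (n : ℕ) : ∀ (k : ℕ) (x : ℝ), 0 ≤ x → HasDerivAt (R n k) (-(R n (k + 1) x)) x := by
  induction n with
  | zero => intro k x hx; exact a_deriv k x hx
  | succ n ih =>
    intro k x hx
    have h1 := ih k x hx
    have h2 := (ih k (x + 2 ^ n) (by positivity)).comp_add_const x (2 ^ n)
    have h3 := h1.sub h2
    have hf : R (n + 1) k = fun y => R n k y - R n k (y + 2 ^ n) := by
      funext y
      rfl
    rw [hf]
    refine HasDerivAt.congr_deriv (f' := _) h3 ?_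
    show _ = -(R n (k + 1) x - R n (k + 1) (x + 2 ^ n))
    ring

/-- the constants -/
def cc (n : ℕ) : ℝ := 2 ^ (∑ i ∈ Finset.range n, i)

theorem cc_pos (n : ℕ) : 0 < cc n := by unfold cc; positivity

theorem cc_succ (n : ℕ) : cc (n + 1) = 2 ^ n * cc n := by
  unfold cc
  rw [Finset.sum_range_succ, pow_add, mul_comm]

theorem R_bound (n : ℕ) : ∀ (k : ℕ) (x : ℝ), 0 ≤ x → 1 ≤ n + k →
    cc n * (Nat.factorial (n + k - 1) : ℝ) / (x + 2 ^ n) ^ (n + k) ≤ R n k x ∧
    R n k x ≤ cc n * (Nat.factorial (n + k - 1) : ℝ) / (x + 1) ^ (n + k) := by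
  induction n with
  | zero =>
    intro k x hx hk
    obtain ⟨m, rfl⟩ : ∃ m, k = m + 1 := ⟨k - 1, by omega⟩
    simp [R, a, cc]
  | succ n ih =>
    intro k x hx _
    have hlt : x < x + 2 ^ n := by linarith [show (0 : ℝ) < 2 ^ n by positivity]
    obtain ⟨c, hc, he⟩ := exists_hasDerivAt_eq_slope (R n k) (fun y => -(R n (k + 1) y)) hlt
      (fun y hy => (R_deriv n k y (by linarith [hy.1])).continuousAt.continuousWithinAt)
      (fun y hy => R_deriv n k y (by linarith [hy.1]))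
    have h2 : (0 : ℝ) < 2 ^ n := by positivity
    have hR : R (n + 1) k x = 2 ^ n * R n (k + 1) c := by
      have : R (n + 1) k x = R n k x - R n k (x + 2 ^ n) := rfl
      rw [this]
      have h3 : x + 2 ^ n - x = 2 ^ n := by ring
      rw [h3] at he
      field_simp at he
      linarith
    obtain ⟨hb1, hb2⟩ := ih (k + 1) c (by linarith [hc.1]) (by omega)
    have e1 : n + (k + 1) - 1 = n + 1 + k - 1 := by omega
    have e2 : n + (k + 1) = n + 1 + k := by omega
    rw [e1, e2] at hb1 hb2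
    rw [hR, cc_succ]
    have hf : (0 : ℝ) ≤ cc n * (Nat.factorial (n + 1 + k - 1) : ℝ) :=
      mul_nonneg (cc_pos n).le (Nat.cast_nonneg _)
    have hx1 : (0 : ℝ) < x + 1 := by linarith
    constructor
    · calc 2 ^ n * cc n * (Nat.factorial (n + 1 + k - 1) : ℝ) / (x + 2 ^ (n + 1)) ^ (n + 1 + k)
          = 2 ^ n * (cc n * (Nat.factorial (n + 1 + k - 1) : ℝ) / (x + 2 ^ (n + 1)) ^ (n + 1 + k)) := by
            ring
        _ ≤ 2 ^ n * (cc n * (Nat.factorial (n + 1 + k - 1) : ℝ) / (c + 2 ^ n) ^ (n + 1 + k)) := by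
            refine mul_le_mul_of_nonneg_left ?_ h2.le
            refine div_le_div_of_nonneg_left hf (pow_pos (by linarith [hc.1]) _) ?_
            refine pow_le_pow_left₀ (by linarith [hc.1]) ?_ _
            have : (2 : ℝ) ^ (n + 1) = 2 ^ n + 2 ^ n := by ring
            rw [this]
            linarith [hc.2]
        _ ≤ 2 ^ n * R n (k + 1) c := mul_le_mul_of_nonneg_left hb1 h2.le
    · calc 2 ^ n * R n (k + 1) c
          ≤ 2 ^ n * (cc n * (Nat.factorial (n + 1 + k - 1) : ℝ) / (c + 1) ^ (n + 1 + k)) :=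
            mul_le_mul_of_nonneg_left hb2 h2.le
        _ ≤ 2 ^ n * (cc n * (Nat.factorial (n + 1 + k - 1) : ℝ) / (x + 1) ^ (n + 1 + k)) := by
            refine mul_le_mul_of_nonneg_left ?_ h2.le
            refine div_le_div_of_nonneg_left hf (pow_pos hx1 _) ?_
            exact pow_le_pow_left₀ hx1.le (by linarith [hc.1]) _
        _ = 2 ^ n * cc n * (Nat.factorial (n + 1 + k - 1) : ℝ) / (x + 1) ^ (n + 1 + k) := by ring

theorem Mn_pos (p : List ℕ) : ∀ j : ℕ, 0 < Mn p j := by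
  induction p with
  | nil => intro j; simp [Mn]
  | cons b p ih =>
    intro j
    simp only [Mn]
    have := ih j
    positivity

theorem Mn_append (p q : List ℕ) (j : ℕ) : Mn (p ++ q) j = Mn p (j + q.length) * Mn q j := by
  induction p with
  | nil => simp [Mn]
  | cons b p ih =>
    simp only [List.cons_append, Mn, ih, List.length_append]
    have : j + (p.length + q.length) + 1 = j + q.length + p.length + 1 := by ring
    rw [this]
    ring

theorem XY_len (I : ℕ) : (XY I).1.length = 2 ^ (I + 1) ∧ (XY I).2.length = 2 ^ (I + 1) := by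
  induction I with
  | zero => simp [XY]
  | succ I ih =>
    simp only [XY, List.length_append, ih.1, ih.2]
    constructor <;> ring

theorem log_ratio (I : ℕ) : ∀ j : ℕ,
    Real.log (Mn (XY I).1 j / Mn (XY I).2 j) = (-1) ^ I * R (I + 1) 0 (j : ℝ) := by
  induction I with
  | zero =>
    intro j
    have h1 : (0 : ℝ) < (j : ℝ) + 1 := by positivity
    have h2 : (0 : ℝ) < (j : ℝ) + 2 := by positivity
    have e : Mn (XY 0).1 j / Mn (XY 0).2 j = ((j : ℝ) + 2) / ((j : ℝ) + 1) := by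
      simp only [XY, Mn, List.length_cons, List.length_nil]
      push_cast
      have e1 : (j : ℝ) + 1 + 1 = (j : ℝ) + 2 := by ring
      have e2 : (j : ℝ) + 0 + 1 = (j : ℝ) + 1 := by ring
      rw [e1, e2]
      field_simp
    rw [e, Real.log_div h2.ne' h1.ne']
    simp only [R, a, pow_zero, one_mul]
    have : (j : ℝ) + 1 + 1 = (j : ℝ) + 2 := by ring
    rw [this]
    ring
  | succ I ih =>
    intro j
    have hl := XY_len I
    have e : Mn (XY (I + 1)).1 j / Mn (XY (I + 1)).2 j =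
        (Mn (XY I).1 (j + 2 ^ (I + 1)) / Mn (XY I).2 (j + 2 ^ (I + 1))) /
          (Mn (XY I).1 j / Mn (XY I).2 j) := by
      simp only [XY, Mn_append, hl.1, hl.2]
      have h1 := Mn_pos (XY I).1 j
      have h2 := Mn_pos (XY I).2 j
      have h3 := Mn_pos (XY I).1 (j + 2 ^ (I + 1))
      have h4 := Mn_pos (XY I).2 (j + 2 ^ (I + 1))
      field_simp
    rw [e, Real.log_div (div_pos (Mn_pos _ _) (Mn_pos _ _)).ne'
      (div_pos (Mn_pos _ _) (Mn_pos _ _)).ne', ih, ih]
    have e3 : R (I + 1 + 1) 0 (j : ℝ) = R (I + 1) 0 (j : ℝ) - R (I + 1) 0 ((j : ℝ) + 2 ^ (I + 1)) := by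
      rfl
    rw [e3]
    push_cast
    ring

/-- LEMMA A -/
theorem Mn_ratio (I : ℕ) : ∃ c : ℝ, 0 < c ∧ ∀ j : ℕ,
    c / ((j : ℝ) + 2 ^ (I + 1)) ^ (I + 1) ≤ (-1) ^ I * Real.log (Mn (XY I).1 j / Mn (XY I).2 j) ∧
    (-1) ^ I * Real.log (Mn (XY I).1 j / Mn (XY I).2 j) ≤ c / ((j : ℝ) + 1) ^ (I + 1) := by
  refine ⟨cc (I + 1) * (Nat.factorial (I + 1 + 0 - 1) : ℝ),
    mul_pos (cc_pos _) (by exact_mod_cast Nat.factorial_pos _), fun j => ?_⟩
  have hb := R_bound (I + 1) 0 (j : ℝ) (by positivity) (by omega)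
  have hs : (-1 : ℝ) ^ I * ((-1) ^ I * R (I + 1) 0 (j : ℝ)) = R (I + 1) 0 (j : ℝ) := by
    rw [← mul_assoc, ← pow_add, ← two_mul, pow_mul]
    simp
  rw [log_ratio, hs]
  exact hb

end Pool.Agent.L5helper39.HW
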